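import Pool.Agent.L0h14.HF.Main

/-!
# Derived invariance of Hodge numbers: equivalences over a base with fibres of dimension three

Let `X` and `Y` be smooth projective complex varieties of dimension `n` and let `f : X → S` and `g : Y → S` be morphisms onto
a projective variety `S` of any dimension all of whose fibres, also the singular ones, are connected and of dimension three.
Let `D(X) ≃ D(Y)` be an equivalence over `S`, with a kernel supported on `X ×_S Y`; for example any equivalence, if the
canonical (or anticanonical) classes of `X` and `Y` are semiample and `f` and `g` are the fibrations defined by their
multiples.

Theorem. `X` and `Y` have the same Hodge numbers.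

If `S` is a point this is the theorem of Popa and Schnell on threefolds. For fibres of dimension at most two it is in the
starting library (`MP_b4fe5e_ag.SmallDefect`, by a different method).

The data are those of the decomposition theorem (Beilinson, Bernstein, Deligne, Gabber; Saito, de Cataldo, Migliorini): the
perverse cohomology modules `P_j` of `Rf_* ℂ_X[n]`, `-3 ≤ j ≤ 3`, are polarizable Hodge modules, so they are sums
`⊕ V ⊗ W V j` over the simple Hodge modules `V`; there is the relative hard Lefschetz theorem and the relative
Hodge-Riemann relations. The module `P_3` has no part supported on a proper subvariety and is a twist of the intersection
complex of `S`, because the fibres are connected of dimension three. A cycle of dimension `n - i` on `X ×_S Y` maps `P_j` to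
`P_{j + 2 i}(i)`, so the class of the kernel of the equivalence gives isomorphisms `⊕ P_j(j / 2)`, over the even `j` and over
the odd `j`, which respect the Mukai pairings.

The proof: the form on the even part has a nonpositive subspace of dimension `2 dim W V 2` and a nonnegative one of dimension
at least `dim W V 0`, so its index determines the multiplicity of `V` in `P_2` and then that in `P_0`; the multiplicities in
`P_1` and `P_{-1}` are determined by the dimension of the odd part, since those in `P_3` and `P_{-3}` are known.
-/

set_option autoImplicit false

namespace Pool.Agent.L0h14.Old.ThreefoldFibres

open Pool.Agent.L0h14.HF

/-- Let `X` and `Y` be families over `S` whose fibres are all connected and of dimension three, and let `Φ` be the action of an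
equivalence of derived categories over `S` on the perverse cohomology modules. Then all multiplicities of simple
Hodge modules in the perverse cohomology modules of `X` and `Y` are equal, and `X` and `Y` have the same Hodge
numbers. -/
theorem result {S : Base} {X Y : Family S} (Φ : Transform X Y) :
    (∀ V j, Module.finrank ℂ (X.W V j) = Module.finrank ℂ (Y.W V j)) ∧ ∀ p q, X.h p q = Y.h p q :=
  ⟨finrank_W Φ, hodge Φ⟩

end Pool.Agent.L0h14.Old.ThreefoldFibres
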