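import Pool.Agent.L0h14.OR.Cut

/-!
# The Chow motive of a Fourier-Mukai partner of a variety whose zero-cycles are supported on a curve

Let `X` and `Y` be derived equivalent smooth projective varieties over a field. The kernel of an equivalence and that of its
inverse have mixed classes `v`, `w` in the rational Chow groups of `X × Y` and `Y × X` which are inverse to each other.
Orlov's question is whether the Chow motives `h(X)` and `h(Y)` are isomorphic.

Let `P` be a class of varieties which contains all varieties of dimension at most one. We consider the varieties `X` for which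
the diagonal of `X` is, up to correspondences which come from varieties in `P`, a sum of compositions
`h(X) → h(D)(-c) → h(X)` (see `ChowTheory.Level`), where `dim X ≤ 2 c + 2`. For `c = 0` this is no condition. For `c = 1` it
is satisfied by the varieties of dimension at most four whose zero-cycles are supported on a curve, for example the
rationally connected fourfolds.

We show for such `X` and for arbitrary `Y` that in the category of Chow motives modulo the morphisms which come from `P`,
the motive of `Y` is a direct sum of Tate twists of direct summands of the motive of `X`: there are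
mutually orthogonal idempotents `e_i` with sum `1` and an isomorphism `h(Y) ≅ ⨁ (h(X), e_i)(s_i)`.
-/

set_option autoImplicit false

universe u v

open CategoryTheory

namespace Pool.Agent.Results.MP_5c0b30_ag.TwistedPieces

open Pool.Agent.L0h14.ORN

/-- Let `X` be a variety of dimension at most `2 c + 2` whose motive has level at most `2` up to motives from `P`, and
let `v`, `w` be mixed classes on `X × Y` and `Y × X` which are inverse to each other. Then modulo the correspondences which
come from `P` there are orthogonal idempotents `e i` of `h(X)` with sum `1`, and isomorphisms `(a i)` and `(b i)`, of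
the degrees `- s i` and `s i`, between `h(Y)` and the direct sum of the motives `(h(X), e i)(s i)`. -/
theorem result {𝒱 : Type u} [Category.{v} 𝒱] [Preadditive 𝒱] [Linear ℚ 𝒱] (T : ChowTheory 𝒱) (P : 𝒱 → Prop)
    (hP : ∀ Z, T.dim Z ≤ 1 → P Z) {c : ℕ} {X Y : 𝒱} (hd : T.dim X ≤ 2 * c + 2) (hX : T.Level P c X)
    {v : X ⟶ Y} {w : Y ⟶ X} (hvw : v ≫ w = 𝟙 X) (hwv : w ≫ v = 𝟙 Y) :
    ∃ (K : ℕ) (s : Fin K → ℤ) (e : Fin K → (X ⟶ X)) (a : Fin K → (X ⟶ Y)) (b : Fin K → (Y ⟶ X)),
      Function.Injective s ∧
      (∀ i, e i ∈ T.gr X X 0 ∧ a i ∈ T.gr X Y (-s i) ∧ b i ∈ T.gr Y X (s i)) ∧ ∑ i, e i = 𝟙 X ∧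
      (∀ i, e i ≫ e i - e i ∈ Via P X X) ∧ (∀ i j, i ≠ j → e i ≫ e j ∈ Via P X X) ∧
      (∀ i, a i ≫ b i - e i ∈ Via P X X) ∧ (∀ i j, i ≠ j → a i ≫ b j ∈ Via P X X) ∧
      (∀ i, e i ≫ a i - a i ∈ Via P X Y) ∧ (∀ i, b i ≫ e i - b i ∈ Via P Y X) ∧
      ∑ i, b i ≫ a i - 𝟙 Y ∈ Via P Y Y :=
  cut (T := T) hP hd hX hvw hwv

end Pool.Agent.Results.MP_5c0b30_ag.TwistedPieces
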