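import Pool.Agent.L0h14.OR.Num
import Pool.Agent.L0h14.OR.Lift

/-!
# Orlov's conjecture over arbitrary fields: rational and numerical equivalence

Let `X` and `Y` be derived equivalent smooth projective varieties over a field. The kernel of an equivalence and that of its
inverse have mixed classes `v`, `w` in the rational Chow groups of `X × Y` and `Y × X` which are inverse to each other.
Orlov's question is whether the Chow motives `h(X)` and `h(Y)` are isomorphic.

Let `P` be a class of varieties which contains all varieties of dimension at most one, such that numerically trivial
endomorphisms of sums of motives of varieties in `P` are nilpotent, for example the class of all varieties whose Chow motive is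
finite-dimensional (theorems of Kimura). We consider the varieties `X` for which the diagonal of `X` is, up to
correspondences which come from varieties in `P`, a sum of compositions `h(X) → h(D)(-c) → h(X)` (see `ChowTheory.Level`), where
`dim X ≤ 2 c + 2`. For `c = 0` this is no condition; for `c = 1` it is satisfied by the varieties of dimension at most four
whose zero-cycles are supported on (the image of) a variety in `P`, for example the rationally connected fourfolds, or the
fourfolds whose zero-cycles are supported on a product of curves. Their motives are not known to be finite-dimensional.

We show for such `X` and `Y` that the Chow motives of `X` and `Y` are isomorphic if and only if the motives modulo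
numerical equivalence are isomorphic. So Orlov's conjecture for these varieties, over any field, is reduced to the existence of
an isomorphism in the semisimple category of motives modulo numerical equivalence.
-/

set_option autoImplicit false

universe u v

open CategoryTheory

namespace Pool.Agent.Results.MP_5c0b30_ag.UpToFiniteDimensional

open Pool.Agent.L0h14.ORN

/-- Let `P` be a class of varieties with finite-dimensional motives which contains all varieties of dimension at most
one, and let `X` and `Y` be varieties of dimension at most `2 c + 2` whose motives have level at most `2` up to motives from `P`.
If there are mixed classes `v` on `X × Y` and `w` on `Y × X` which are inverse to each other (for example if `X` and `Y` are derived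
equivalent), then the Chow motives of `X` and `Y` are isomorphic if and only if their numerical motives are isomorphic. -/
theorem result {𝒱 : Type u} [Category.{v} 𝒱] [Preadditive 𝒱] [Linear ℚ 𝒱] (T : ChowTheory 𝒱) (P : 𝒱 → Prop)
    (hP : T.Finite P) {c : ℕ} {X Y : 𝒱} (hdX : T.dim X ≤ 2 * c + 2) (hdY : T.dim Y ≤ 2 * c + 2)
    (hX : T.Level P c X) (hY : T.Level P c Y) {v : X ⟶ Y} {w : Y ⟶ X} (hvw : v ≫ w = 𝟙 X) (hwv : w ≫ v = 𝟙 Y) :
    T.ChowIso X Y ↔ T.NumIso X Y :=
  main (T := T) (fun _ _ _ _ J hJ u v huv hvu => Pool.Agent.L0h14.OR.lift_units J hJ u v huv hvu) hP hdX hdY hX hY hvw hwv

end Pool.Agent.Results.MP_5c0b30_ag.UpToFiniteDimensional
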